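import Pool.Graph.R_pool_sql_team_seeded_620a6dc7.H707.SM.Fin

/-! Majorants of tents `(x - |u|)₊` for `x = 4/3` and `x = 12/5`, and upper bounds for the means of
`(δ_n - x)₊`. -/

open Set Filter Topology MeasureTheory

namespace Pool.Agent.KS6_15.VW

open Pool.Agent.H707.SM
open Pool.Agent.TH873.EW (ct mom XV ct_cont)
open LG (dlt)

/-- inside the tent -/
lemma inside' {x u : ℝ} {m : ℕ} (hu0 : 0 < u) (hux : u < x) (hx : x ≤ m + 1 / 2)
    (hn : ∀ k : ℕ, u ≠ k) :
    (x - u) * (Am m u + (1 / (m + 1 / 2 - u) + 1 / (m + 1 / 2 + u))) ≤ Rm x m u := by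
  have hxu : 0 < x - u := by linarith
  have e : Rm x m u - (x - u) * Am m u = 1 / u + 2 * u * Sp m u := by
    unfold Rm Am Sp
    rw [mul_add, Finset.mul_sum, Finset.mul_sum, add_sub_add_comm, ← Finset.sum_sub_distrib]
    congr 1
    · field_simp
      ring
    · apply Finset.sum_congr rfl
      intro k _
      have h1 : u - (k + 1) ≠ 0 := by
        have := hn (k + 1)
        push_cast at this
        exact sub_ne_zero.2 this
      have h2 : u + (k + 1) ≠ 0 := by positivity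
      obtain ⟨a, ha⟩ : ∃ a, a = u - (k + 1) := ⟨_, rfl⟩
      obtain ⟨b, hb⟩ : ∃ b, b = u + (k + 1) := ⟨_, rfl⟩
      rw [← ha] at h1 ⊢
      rw [← hb] at h2 ⊢
      have e3 : x - (k + 1) = x - u + a := by rw [ha]; ring
      have e4 : a = 2 * u - b := by rw [ha, hb]; ring
      have e5 : (x - (k + 1)) * (1 / a ^ 2 + 1 / b ^ 2) - (1 / a - 1 / b) -
          (x - u) * (1 / a ^ 2 + 1 / b ^ 2) = a * (1 / a ^ 2 + 1 / b ^ 2) - (1 / a - 1 / b) := by
        rw [e3]; ring
      rw [e5]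
      have e6 : a * (1 / a ^ 2 + 1 / b ^ 2) - (1 / a - 1 / b) = (a + b) / b ^ 2 := by
        field_simp
        ring
      rw [e6, e4]
      field_simp
      ring
  have h3 := Sp_ge' hu0 m
  set X : ℝ := m + 1 / 2 with hX
  have hXu : 0 < X - u := by linarith
  have hXu' : 0 < X + u := by linarith
  have h4 : (x - u) * (1 / (X - u) + 1 / (X + u)) ≤ 2 * X / (X + u) := by
    have e7 : (1 / (X - u) + 1 / (X + u)) = (2 * X / (X + u)) / (X - u) := by
      field_simp
      ring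
    rw [e7, mul_div_assoc', div_le_iff₀ hXu, mul_comm]
    apply mul_le_mul_of_nonneg_left (by linarith)
    have : 0 < X := by linarith
    positivity
  have h5 : (x - u) * (Am m u + (1 / (X - u) + 1 / (X + u))) ≤
      (x - u) * Am m u + 2 * X / (X + u) := by
    rw [mul_add]
    linarith
  have h6 : 2 * u * (1 / u - 1 / (2 * u ^ 2) - 1 / (u + X)) ≤ 2 * u * Sp m u :=
    mul_le_mul_of_nonneg_left h3 (by positivity)
  have h7 : 1 / u + 2 * u * (1 / u - 1 / (2 * u ^ 2) - 1 / (u + X)) = 2 * X / (X + u) := by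
    rw [add_comm u X]
    field_simp
    ring
  linarith

/-- **the majorant** for general `x` -/
theorem tent_le' {x : ℝ} {m : ℕ} (hx0 : 0 < x) (hx : x ≤ m + 1 / 2)
    (hout : ∀ u : ℝ, x < u → (∀ n : ℤ, u ≠ n) → 0 ≤ Rm x m u) (u : ℝ) :
    max 0 (x - |u|) ≤ ct (hk x m) u := by
  have hcont : Continuous (ct (hk x m)) := ct_cont (cd_hk x m).continuous
  have heven : ∀ y, ct (hk x m) (-y) = ct (hk x m) y := by
    intro y
    unfold ct
    congr 1
    apply intervalIntegral.integral_congr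
    intro t _
    simp only
    rw [show 2 * Real.pi * -y * t = -(2 * Real.pi * y * t) by ring, Real.cos_neg]
  have hpi := Real.pi_pos
  have key : ∀ y : ℝ, 0 < y → (∀ n : ℤ, y ≠ n) → y ≠ x → max 0 (x - y) ≤ ct (hk x m) y := by
    intro y hy hn hyx
    have hsin : Real.sin (Real.pi * y) ≠ 0 := by
      intro h
      rw [Real.sin_eq_zero_iff] at h
      obtain ⟨n, hn'⟩ := h
      apply hn n
      have : (n : ℝ) * Real.pi = y * Real.pi := by rw [hn']; ring
      exact (mul_right_cancel₀ hpi.ne' this).symm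
    have hs2 : 0 < Real.sin (Real.pi * y) ^ 2 := by positivity
    have hD : ∀ k : ℕ, ((k : ℝ) + 1) ^ 2 - y ^ 2 ≠ 0 := by
      intro k h
      have h1 : y ^ 2 = ((k : ℝ) + 1) ^ 2 := by linarith
      rcases sq_eq_sq_iff_eq_or_eq_neg.mp h1 with h2 | h2
      · apply hn (k + 1)
        push_cast
        exact h2
      · have : (0 : ℝ) ≤ k := Nat.cast_nonneg k
        linarith
    rw [ct_hk x m hy.ne' hD]
    rcases lt_or_gt_of_ne hyx with h | h
    · rw [max_eq_right (by linarith)]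
      have h1 := inside' (m := m) hy h hx (fun k hk => hn k (by push_cast; exact hk))
      have h2 := sin_bound (m := m) hy (h.trans_le hx) hsin
      have h3 : (x - y) * (Real.pi ^ 2 / Real.sin (Real.pi * y) ^ 2) ≤ Rm x m y :=
        (mul_le_mul_of_nonneg_left h2 (by linarith)).trans h1
      have h4 := mul_le_mul_of_nonneg_left h3
        (show 0 ≤ Real.sin (Real.pi * y) ^ 2 / Real.pi ^ 2 by positivity)
      refine le_trans (le_of_eq ?_) h4
      obtain ⟨s, hs⟩ : ∃ s, s = Real.sin (Real.pi * y) := ⟨_, rfl⟩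
      rw [← hs] at hsin ⊢
      field_simp
    · rw [max_eq_left (by linarith)]
      exact mul_nonneg (by positivity) (hout y h hn)
  have hcount : (Set.range (fun n : ℤ => (n : ℝ)) ∪ {x, -x}).Countable :=
    (Set.countable_range _).union (Set.toFinite _).countable
  have hdense : Dense (Set.range (fun n : ℤ => (n : ℝ)) ∪ {x, -x})ᶜ := hcount.dense_compl ℝ
  have hclosed : IsClosed {y : ℝ | max 0 (x - |y|) ≤ ct (hk x m) y} :=
    isClosed_le (by fun_prop) hcont
  have hsub : (Set.range (fun n : ℤ => (n : ℝ)) ∪ {x, -x})ᶜ ⊆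
      {y : ℝ | max 0 (x - |y|) ≤ ct (hk x m) y} := by
    intro y hy
    simp only [Set.mem_compl_iff, Set.mem_union, Set.mem_range, Set.mem_insert_iff,
      Set.mem_singleton_iff, not_or, not_exists] at hy
    obtain ⟨h1, h2, h3⟩ := hy
    rw [Set.mem_ofPred_eq]
    rcases lt_trichotomy y 0 with h | h | h
    · rw [abs_of_neg h, ← heven y]
      refine key (-y) (by linarith) (fun n hn => h1 (-n) ?_) (fun h4 => h3 ?_)
      · push_cast; linarith
      · linarith
    · exact absurd (by rw [h]; simp) (h1 0)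
    · rw [abs_of_pos h]
      exact key y h (fun n hn => h1 n hn.symm) h2
  have := hclosed.closure_subset_iff.2 hsub
  exact this (hdense u)

lemma tent_43 (u : ℝ) : max 0 (4 / 3 - |u|) ≤ ct (hk (4 / 3) 1) u := by
  refine tent_le' (by norm_num) (by norm_num) (fun u hu hn => ?_) u
  have h1 : u ≠ 0 := by linarith
  have h2 : u - 1 ≠ 0 := by
    have : 0 < u - 1 := by linarith
    exact this.ne'
  have h3 : u + 1 ≠ 0 := by
    have : 0 < u + 1 := by linarith
    exact this.ne'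
  have e : Rm (4 / 3) 1 u = 4 / 3 / (u ^ 2 * (u - 1) ^ 2 * (u + 1) ^ 2) := by
    unfold Rm
    simp only [Finset.sum_range_one, Nat.cast_zero, zero_add]
    field_simp
    ring
  rw [e]
  positivity

lemma tent_125 (u : ℝ) : max 0 (12 / 5 - |u|) ≤ ct (hk (12 / 5) 2) u := by
  refine tent_le' (by norm_num) (by norm_num) (fun u hu hn => ?_) u
  have h1 : u ≠ 0 := by linarith
  have h2 : u - 1 ≠ 0 := by
    have : 0 < u - 1 := by linarith
    exact this.ne'
  have h3 : u + 1 ≠ 0 := by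
    have : 0 < u + 1 := by linarith
    exact this.ne'
  have h4 : u - 2 ≠ 0 := by
    have : 0 < u - 2 := by linarith
    exact this.ne'
  have h5 : u + 2 ≠ 0 := by
    have : 0 < u + 2 := by linarith
    exact this.ne'
  have e : Rm (12 / 5) 2 u = (12 * u ^ 4 + 192 / 5) /
      (u ^ 2 * (u - 1) ^ 2 * (u + 1) ^ 2 * (u - 2) ^ 2 * (u + 2) ^ 2) := by
    unfold Rm
    simp only [Finset.sum_range_succ, Finset.sum_range_zero, Nat.cast_zero, zero_add, Nat.cast_one]
    rw [show (1 : ℝ) + 1 = 2 by norm_num]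
    field_simp
    ring
  rw [e]
  positivity

/-- removing the truncation -/
lemma up_of (hRH : RiemannHypothesis) {x A : ℝ} (hx : 0 ≤ x)
    (h : ∀ B : ℝ, 0 ≤ B → ∀ ε : ℝ, 0 < ε → ∀ᶠ N : ℕ in atTop,
      ∑ n ∈ Finset.Icc 1 N, mc B x (dlt n) ≤ (A + ε) * N) (ε : ℝ) (hε : 0 < ε) :
    ∀ᶠ N : ℕ in atTop, ∑ n ∈ Finset.Icc 1 N, max 0 (Pool.Agent.Y747.dl n - x) ≤ (A + ε) * N := by
  obtain ⟨K0, hK0⟩ := tail_dlt hRH (ε := ε / 2) (by positivity)
  set K := max K0 1 with hK
  have hK1 : 1 ≤ K := le_max_right _ _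
  filter_upwards [h (K : ℝ) (Nat.cast_nonneg K) (ε / 2) (by positivity),
    eventually_ge_atTop 1] with N h1 hN
  have h2 := hK0 K (le_max_left _ _) N hN
  have h3 : ∑ n ∈ Finset.Icc 1 N, max 0 (Pool.Agent.Y747.dl n - x) ≤
      ∑ n ∈ Finset.Icc 1 N, (mc K x (dlt n) + tl K (dlt n)) := by
    apply Finset.sum_le_sum
    intro n hn
    rw [Finset.mem_Icc] at hn
    refine le_trans (max_le_max le_rfl ?_) (pos_le (d := dlt n) hK1 hx)
    linarith [dlt_ge_dl hn.1]
  rw [Finset.sum_add_distrib] at h3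
  have e : (A + ε) * N = (A + ε / 2) * N + ε / 2 * N := by ring
  linarith

theorem up_12 (hRH : RiemannHypothesis) (ε : ℝ) (hε : 0 < ε) :
    ∀ᶠ N : ℕ in atTop, ∑ n ∈ Finset.Icc 1 N, max 0 (Pool.Agent.Y747.dl n - 1 / 2) ≤
      (7 / 12 + ε) * N :=
  up_of hRH (by norm_num) (fun _ hB _ hε => mean_zero hRH hB hε) ε hε

theorem up_1 (hRH : RiemannHypothesis) (ε : ℝ) (hε : 0 < ε) :
    ∀ᶠ N : ℕ in atTop, ∑ n ∈ Finset.Icc 1 N, max 0 (Pool.Agent.Y747.dl n - 1) ≤
      (0.2045 + ε) * N :=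
  up_of hRH (by norm_num) (fun _ hB _ hε => mean_one hRH hB hε) ε hε

theorem up_43 (hRH : RiemannHypothesis) (ε : ℝ) (hε : 0 < ε) :
    ∀ᶠ N : ℕ in atTop, ∑ n ∈ Finset.Icc 1 N, max 0 (Pool.Agent.Y747.dl n - 4 / 3) ≤
      (0.1378 + ε) * N := by
  refine up_of hRH (by norm_num) (fun B hB ε hε => ?_) ε hε
  have h := mean hRH (cd_hk (4 / 3) 1) (hk_one _ _) (x := 4 / 3) (by norm_num) tent_43
    (le_refl 1) hd_dlt hB hε
  filter_upwards [h] with N hN
  refine hN.trans ?_
  apply mul_le_mul_of_nonneg_right _ (Nat.cast_nonneg N)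
  rw [mom_hk]
  simp only [Finset.sum_range_one, Nat.cast_zero, zero_add, Nat.cast_one]
  obtain ⟨h1, h2⟩ := inv_pi_sq
  norm_num at h1 h2 ⊢
  linarith

theorem up_125 (hRH : RiemannHypothesis) (ε : ℝ) (hε : 0 < ε) :
    ∀ᶠ N : ℕ in atTop, ∑ n ∈ Finset.Icc 1 N, max 0 (Pool.Agent.Y747.dl n - 12 / 5) ≤
      (0.0574 + ε) * N := by
  refine up_of hRH (by norm_num) (fun B hB ε hε => ?_) ε hε
  have h := mean hRH (cd_hk (12 / 5) 2) (hk_one _ _) (x := 12 / 5) (by norm_num) tent_125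
    (by norm_num : 1 ≤ 2) hd_dlt hB hε
  filter_upwards [h] with N hN
  refine hN.trans ?_
  apply mul_le_mul_of_nonneg_right _ (Nat.cast_nonneg N)
  rw [mom_hk]
  simp only [Finset.sum_range_succ, Finset.sum_range_zero, Nat.cast_zero, zero_add, Nat.cast_one]
  obtain ⟨h1, h2⟩ := inv_pi_sq
  norm_num at h1 h2 ⊢
  linarith

end Pool.Agent.KS6_15.VW
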