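import Pool.Graph.R_seed8.Y747.Ar

/-! The correlation of the prime polynomial with the zeros, for windows of general length. -/

open Complex Filter Topology Set MeasureTheory

namespace Pool.Agent.KS6_15.VW

open Pool.Agent.Y747 TC

/-- the correlation with the zeros -/
lemma al_cor {w : ℝ} (hw0 : 0 < w) (hw2 : w ≤ 2) {F : ℝ → ℝ} {b k : ℝ} (hb : 0 < b) (hb1 : b ≤ 1 / 2) (hF : ∀ u, 0 ≤ F u)
    (hk : ∀ u, F u ≤ k) (hFs : ∀ u, b ≤ u → F u = 0)
    {K : NNReal} (hK : LipschitzWith K (fun u : ℝ => ((F u * Real.sin (Real.pi * (w * u)) : ℝ) : ℂ)))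
    (η : ℝ) (hη : 0 < η) : ∃ T1 : ℝ, ∀ T : ℝ, T1 ≤ T →
    (∫ u in (0 : ℝ)..1, F u * Real.sin (Real.pi * (w * u))) - η ≤
      Rq (al F (Real.log T)) ⌊T ^ b⌋₊ (Real.log T) (w * Real.pi / Real.log T) := by
  obtain ⟨C, hC, h⟩ := SP.mert (fun u : ℝ => ((F u * Real.sin (Real.pi * (w * u)) : ℝ) : ℂ)) K hK
    (fun u hu => by rw [hFs u (by linarith)]; simp)
  set K1 := ∑' n : ℕ, lam n ^ 2 * Real.exp (-(Real.log n) ^ 2 / 2) with hK1
  have hK10 : 0 ≤ K1 := tsum_nonneg fun n => by positivity
  have hk0 : 0 ≤ k := (hF 0).trans (hk 0)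
  have hpi := Real.pi_pos
  have ev : ∀ᶠ T : ℝ in atTop, max 1 ((C + 2 * k * w * Real.pi * K1) / η) ≤ Real.log T :=
    Real.tendsto_log_atTop.eventually_ge_atTop _
  obtain ⟨T1, hT1⟩ := eventually_atTop.1 (ev.and (eventually_ge_atTop 10))
  refine ⟨T1, fun T hT => ?_⟩
  obtain ⟨h1, h2⟩ := hT1 T hT
  have hL1 : 1 ≤ Real.log T := (le_max_left _ _).trans h1
  have h1' := (le_max_right _ _).trans h1
  have hL : 0 < Real.log T := by linarith
  set L := Real.log T with hLdef
  have h3 := h T h2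
  have e0 : Rq (al F L) ⌊T ^ b⌋₊ L (w * Real.pi / L) =
      ∑ p ∈ (Finset.Icc 1 ⌊T⌋₊).filter Nat.Prime,
        al F L p * qf L p * (Real.sin (w * Real.pi / L * Real.log p) / Real.log p) := by
    unfold Rq
    exact sum_reduce hb hb1 h2 (G := fun n => al F L n * qf L n *
      (Real.sin (w * Real.pi / L * Real.log n) / Real.log n))
      (fun n hn => by simp [al, hn]) (fun n hn => by
        unfold al
        rw [hFs _ hn]
        simp)
  rw [e0]
  have e1 : ∀ p ∈ (Finset.Icc 1 ⌊T⌋₊).filter Nat.Prime,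
      (1 / L) * ((Real.log p / p) * (F (Real.log p / L) * Real.sin (Real.pi * (w * (Real.log p / L))))) -
      2 * k * w * Real.pi / L ^ 2 * (lam p ^ 2 * Real.exp (-(Real.log p) ^ 2 / 2)) ≤
      al F L p * qf L p * (Real.sin (w * Real.pi / L * Real.log p) / Real.log p) := by
    intro p hp
    have hpp := (Finset.mem_filter.1 hp).2
    have hp2 : (2 : ℝ) ≤ p := by exact_mod_cast hpp.two_le
    have hlp : 0 < Real.log p := Real.log_pos (by linarith)
    have hp0 : (p : ℝ) ≠ 0 := by linarith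
    by_cases hbig : b ≤ Real.log p / L
    · unfold al
      rw [hFs _ hbig]
      simp only [zero_mul, mul_zero, ite_self, zero_sub]
      have : 0 ≤ 2 * k * w * Real.pi / L ^ 2 * (lam p ^ 2 * Real.exp (-(Real.log p) ^ 2 / 2)) := by
        positivity
      linarith
    · rw [not_le] at hbig
      have hlpL : Real.log p ≤ L / 2 := by
        rw [div_lt_iff₀ hL] at hbig
        have : b * L ≤ 1 / 2 * L := by gcongr
        linarith
      have hW := Sum2.W_tail (L := Real.log p) (ℓ := L) hlp.le (by linarith)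
      have hQ1 := gs_int_le_one (a := 0) (b := L) hL.le (Real.log p)
      set Q := ∫ u in (0 : ℝ)..L, gs (u - Real.log p) with hQ
      have hexp : Real.exp (-(L - Real.log p) ^ 2 / 2) ≤ Real.exp (-(Real.log p) ^ 2 / 2) := by
        apply Real.exp_le_exp.2
        have : (Real.log p) ^ 2 ≤ (L - Real.log p) ^ 2 :=
          pow_le_pow_left₀ hlp.le (by linarith) 2
        linarith
      set E := Real.exp (-(Real.log p) ^ 2 / 2) with hE
      have hE0 : 0 < E := Real.exp_pos _
      have hQE : 1 - 2 * E ≤ Q := by linarith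
      have hal : al F L p = lam p / L * F (Real.log p / L) := by
        unfold al
        rw [if_pos hpp]
      have hqf : qf L p = lam p * Q := rfl
      have hx : w * Real.pi / L * Real.log p = Real.pi * (w * (Real.log p / L)) := by ring
      rw [hal, hqf, hx]
      set u := Real.log p / L with hu
      have hu0 : 0 ≤ u := by positivity
      have hu1 : u ≤ 1 := by
        rw [hu, div_le_one hL]
        linarith
      have hsin0 : 0 ≤ Real.sin (Real.pi * (w * u)) := by
        apply Real.sin_nonneg_of_nonneg_of_le_pi (by positivity)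
        have hub : u ≤ 1 / 2 := (hbig.le).trans hb1
        have hwu : w * u ≤ 1 := by nlinarith
        calc Real.pi * (w * u) ≤ Real.pi * 1 := by gcongr
          _ = Real.pi := mul_one _
      have hsin1 : Real.sin (Real.pi * (w * u)) ≤ Real.pi * (w * u) := Real.sin_le (by positivity)
      have hFu := hF u
      have hlam := lam_prime hpp
      have e2 : lam p / L * F u * (lam p * Q) * (Real.sin (Real.pi * (w * u)) / Real.log p) =
          (1 / L) * ((Real.log p / p) * (F u * Real.sin (Real.pi * (w * u)))) * Q := by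
        have : lam p / L * F u * (lam p * Q) * (Real.sin (Real.pi * (w * u)) / Real.log p) =
          lam p ^ 2 / L * F u * Q * (Real.sin (Real.pi * (w * u)) / Real.log p) := by ring
        rw [this, hlam]
        field_simp
      rw [e2]
      set M := (1 / L) * ((Real.log p / p) * (F u * Real.sin (Real.pi * (w * u)))) with hM
      have hM0 : 0 ≤ M := by
        rw [hM]
        have : 0 ≤ F u * Real.sin (Real.pi * (w * u)) := mul_nonneg hFu hsin0
        positivity
      have hM1 : M ≤ k * w * Real.pi / L ^ 2 * lam p ^ 2 := by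
        rw [hM, hlam]
        have h5 : F u * Real.sin (Real.pi * (w * u)) ≤ k * (Real.pi * (w * u)) :=
          mul_le_mul (hk u) hsin1 hsin0 hk0
        calc (1 / L) * ((Real.log p / p) * (F u * Real.sin (Real.pi * (w * u)))) ≤
            (1 / L) * ((Real.log p / p) * (k * (Real.pi * (w * u)))) := by gcongr
          _ = k * w * Real.pi / L ^ 2 * (Real.log p ^ 2 / p) := by
            rw [hu]
            field_simp
      have h6 : M * (1 - 2 * E) ≤ M * Q := mul_le_mul_of_nonneg_left hQE hM0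
      have h7 : 2 * E * M ≤ 2 * E * (k * w * Real.pi / L ^ 2 * lam p ^ 2) := by gcongr
      have h8 : 2 * k * w * Real.pi / L ^ 2 * (lam p ^ 2 * E) =
          2 * E * (k * w * Real.pi / L ^ 2 * lam p ^ 2) := by ring
      rw [h8]
      linarith
  have h4 := Finset.sum_le_sum e1
  rw [Finset.sum_sub_distrib, ← Finset.mul_sum, ← Finset.mul_sum] at h4
  have h5 : ∑ p ∈ (Finset.Icc 1 ⌊T⌋₊).filter Nat.Prime,
      (lam p ^ 2 * Real.exp (-(Real.log p) ^ 2 / 2)) ≤ K1 :=
    Sum2.K1_summable.sum_le_tsum _ (fun n _ => by positivity)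
  have e2 : ((1 / L : ℝ) : ℂ) * ∑ p ∈ (Finset.Icc 1 ⌊T⌋₊).filter Nat.Prime,
      ((Real.log p / p : ℝ) : ℂ) * ((F (Real.log p / L) * Real.sin (Real.pi * (w * (Real.log p / L))) : ℝ) : ℂ) -
        ∫ u in (0 : ℝ)..1, ((F u * Real.sin (Real.pi * (w * u)) : ℝ) : ℂ) =
      (((1 / L) * (∑ p ∈ (Finset.Icc 1 ⌊T⌋₊).filter Nat.Prime,
        (Real.log p / p) * (F (Real.log p / L) * Real.sin (Real.pi * (w * (Real.log p / L))))) -
        ∫ u in (0 : ℝ)..1, F u * Real.sin (Real.pi * (w * u)) : ℝ) : ℂ) := by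
    rw [intervalIntegral.integral_ofReal]
    push_cast
    rfl
  rw [e2, Complex.norm_real, Real.norm_eq_abs] at h3
  have h6 := (abs_le.1 h3).1
  have h7 : 2 * k * w * Real.pi / L ^ 2 * (∑ p ∈ (Finset.Icc 1 ⌊T⌋₊).filter Nat.Prime,
      (lam p ^ 2 * Real.exp (-(Real.log p) ^ 2 / 2))) ≤ 2 * k * w * Real.pi * K1 / L := by
    calc 2 * k * w * Real.pi / L ^ 2 * (∑ p ∈ (Finset.Icc 1 ⌊T⌋₊).filter Nat.Prime,
      (lam p ^ 2 * Real.exp (-(Real.log p) ^ 2 / 2))) ≤ 2 * k * w * Real.pi / L ^ 2 * K1 := by gcongr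
      _ ≤ 2 * k * w * Real.pi / L * K1 := by
        apply mul_le_mul_of_nonneg_right _ hK10
        apply div_le_div_of_nonneg_left (by positivity) hL
        nlinarith
      _ = _ := by ring
  have h8 : C / L + 2 * k * w * Real.pi * K1 / L ≤ η := by
    rw [← add_div, div_le_iff₀ hL]
    rw [div_le_iff₀ hη] at h1'
    linarith
  linarith

end Pool.Agent.KS6_15.VW
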