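import Pool.Agent.KS6_15.VW.Gp
import Pool.Graph.R_pool_sql_team_seeded_b677cdb8.E8helper28.RM.SNum

/-! The void sets: numerical form of the certificates. -/

open Complex Filter Topology Set MeasureTheory

namespace Pool.Agent.KS6_15.VW

open Pool.Agent.Y747
open Pool.Agent.E8helper28.RM (plo phi plo_le le_phi)

lemma Fq_lip2 (w : ℝ) : ∃ K : NNReal, LipschitzWith K
    (fun u : ℝ => ((Fq u * Real.sin (Real.pi * (w * u)) : ℝ) : ℂ)) := by
  have h := lip_mul (f := fun u => (61 / 25) * (1 - 3 / 2 * u ^ 2) * Real.sin (Real.pi * (w * u)))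
    (τ := fun u => tr (4998 / 10000) (4999 / 10000) u) (by fun_prop)
    (fun x => tr_nonneg _ _ _) (fun x => tr_le _ _ _)
    (K := 1 / (4999 / 10000 - 4998 / 10000)) (by norm_num) (fun x y => tr_lip sb x y)
    (fun x hx => tr_zero sb (by linarith))
  obtain ⟨K, hK⟩ := h
  refine ⟨K, ?_⟩
  have e : (fun u : ℝ => ((Fq u * Real.sin (Real.pi * (w * u)) : ℝ) : ℂ)) = fun u : ℝ =>
      (((61 / 25) * (1 - 3 / 2 * u ^ 2) * Real.sin (Real.pi * (w * u)) *
        tr (4998 / 10000) (4999 / 10000) u : ℝ) : ℂ) := by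
    funext u
    unfold Fq
    congr 1
    ring
  rw [e]
  exact hK

/-- lower bound for the correlation integral over `π`, as a polynomial in `π ^ 2` -/
noncomputable def Iw (p w : ℝ) : ℝ :=
  61 / 25 * (w * ((4998 / 10000) ^ 2 / 2 - 3 / 2 * (4998 / 10000) ^ 4 / 4) -
    p * w ^ 3 / 6 * ((4998 / 10000) ^ 4 / 4 - 3 / 2 * (4998 / 10000) ^ 6 / 6) +
    p ^ 2 * w ^ 5 / 120 * ((4998 / 10000) ^ 6 / 6 - 3 / 2 * (4998 / 10000) ^ 8 / 8) -
    p ^ 3 * w ^ 7 / 5040 * ((4998 / 10000) ^ 8 / 8 - 3 / 2 * (4998 / 10000) ^ 10 / 10))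

lemma sin_ge4 {x : ℝ} (hx : 0 ≤ x) : x - x ^ 3 / 6 + x ^ 5 / 120 - x ^ 7 / 5040 ≤ Real.sin x := by
  have h := (Pool.Agent.E8helper28.RM.taylor 1).2.2.2 x hx
  refine le_trans (le_of_eq ?_) h
  unfold Pool.Agent.E8helper28.RM.Sn
  norm_num [Finset.sum_range_succ, Nat.factorial]
  ring

lemma Iw_le {w : ℝ} (hw0 : 0 < w) (hw2 : w ≤ 2) : Real.pi * Iw (Real.pi ^ 2) w ≤
    ∫ u in (0 : ℝ)..1, Fq u * Real.sin (Real.pi * (w * u)) := by
  have hpi := Real.pi_pos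
  have hc : Continuous fun u : ℝ => Fq u * Real.sin (Real.pi * (w * u)) := Fq_cont.mul (by fun_prop)
  have h1 : ∫ u in (0 : ℝ)..1, Fq u * Real.sin (Real.pi * (w * u)) =
      (∫ u in (0 : ℝ)..(4998 / 10000), Fq u * Real.sin (Real.pi * (w * u))) +
      ∫ u in (4998 / 10000 : ℝ)..1, Fq u * Real.sin (Real.pi * (w * u)) :=
    (intervalIntegral.integral_add_adjacent_intervals (hc.intervalIntegrable _ _)
      (hc.intervalIntegrable _ _)).symm
  have h2 : 0 ≤ ∫ u in (4998 / 10000 : ℝ)..1, Fq u * Real.sin (Real.pi * (w * u)) := by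
    apply intervalIntegral.integral_nonneg (by norm_num)
    intro u hu
    rcases lt_or_ge u (4999 / 10000) with h | h
    · apply mul_nonneg (Fq_nonneg u)
      apply Real.sin_nonneg_of_nonneg_of_le_pi
      · have := hu.1
        positivity
      · have h3 : w * u ≤ 1 := by nlinarith [hu.1]
        calc Real.pi * (w * u) ≤ Real.pi * 1 := by gcongr
          _ = Real.pi := mul_one _
    · rw [Fq_supp u h, zero_mul]
  set z := Real.pi * w with hz
  have hz0 : 0 < z := by positivity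
  have h3 : ∫ u in (0 : ℝ)..(4998 / 10000), (61 / 25) * (1 - 3 / 2 * u ^ 2) *
      (z * u - (z * u) ^ 3 / 6 + (z * u) ^ 5 / 120 - (z * u) ^ 7 / 5040) ≤
      ∫ u in (0 : ℝ)..(4998 / 10000), Fq u * Real.sin (Real.pi * (w * u)) := by
    apply intervalIntegral.integral_mono_on (by norm_num)
      (Continuous.intervalIntegrable (by fun_prop) _ _) (hc.intervalIntegrable _ _)
    intro u hu
    have h4 : |u| ≤ 4998 / 10000 := by
      rw [abs_of_nonneg hu.1]; exact hu.2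
    have h5 : Fq u = (61 / 25) * (1 - 3 / 2 * u ^ 2) := by
      unfold Fq
      rw [tr_one sb h4, mul_one]
    rw [h5]
    have h6 : 0 ≤ (61 / 25 : ℝ) * (1 - 3 / 2 * u ^ 2) := by
      have : u ^ 2 ≤ 1 / 4 := by nlinarith [hu.1, hu.2]
      nlinarith
    apply mul_le_mul_of_nonneg_left _ h6
    have h7 := sin_ge4 (x := z * u) (mul_nonneg hz0.le hu.1)
    have h8 : z * u = Real.pi * (w * u) := by rw [hz]; ring
    rw [← h8]
    exact h7
  have h4 : ∫ u in (0 : ℝ)..(4998 / 10000), (61 / 25) * (1 - 3 / 2 * u ^ 2) *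
      (z * u - (z * u) ^ 3 / 6 + (z * u) ^ 5 / 120 - (z * u) ^ 7 / 5040) =
      Real.pi * Iw (Real.pi ^ 2) w := by
    have hd : ∀ x ∈ Set.uIcc (0 : ℝ) (4998 / 10000), HasDerivAt (fun u : ℝ => 61 / 25 *
        (z * (u ^ 2 / 2 - 3 / 2 * (u ^ 4 / 4)) - z ^ 3 / 6 * (u ^ 4 / 4 - 3 / 2 * (u ^ 6 / 6)) +
        z ^ 5 / 120 * (u ^ 6 / 6 - 3 / 2 * (u ^ 8 / 8)) -
        z ^ 7 / 5040 * (u ^ 8 / 8 - 3 / 2 * (u ^ 10 / 10))))
        ((61 / 25) * (1 - 3 / 2 * x ^ 2) *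
      (z * x - (z * x) ^ 3 / 6 + (z * x) ^ 5 / 120 - (z * x) ^ 7 / 5040)) x := by
      intro x _
      have d2 := (hasDerivAt_pow 2 x).div_const 2
      have d4 := (hasDerivAt_pow 4 x).div_const 4
      have d6 := (hasDerivAt_pow 6 x).div_const 6
      have d8 := (hasDerivAt_pow 8 x).div_const 8
      have d10 := (hasDerivAt_pow 10 x).div_const 10
      have d := (((((d2.sub (d4.const_mul (3 / 2))).const_mul z).sub
        ((d4.sub (d6.const_mul (3 / 2))).const_mul (z ^ 3 / 6))).add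
        ((d6.sub (d8.const_mul (3 / 2))).const_mul (z ^ 5 / 120))).sub
        ((d8.sub (d10.const_mul (3 / 2))).const_mul (z ^ 7 / 5040))).const_mul (61 / 25 : ℝ)
      refine d.congr_deriv ?_
      norm_num
      ring
    rw [intervalIntegral.integral_eq_sub_of_hasDerivAt hd
      (Continuous.intervalIntegrable (by fun_prop) _ _)]
    rw [hz]
    unfold Iw
    ring
  rw [h1]
  linarith

/-- numerical form -/
theorem vb_of {w a0 a1 a2 a3 a4 κ c θ : ℝ} (hw0 : 0 < w) (hw2 : w ≤ 2) (hκ : 0 ≤ κ) (hc : 0 ≤ c)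
    (ha2 : 0 ≤ a2) (ha4 : a4 ≤ 0)
    (hA1 : ∀ z, AA a0 a1 a2 a3 a4 z ≤ 1) (hA2 : ∀ z, AA a0 a1 a2 a3 a4 z ≤ κ * (z + c) ^ 2)
    (hle : a2 ≤ κ * w)
    (hval : θ < a0 + 2 * a2 * (50001 / 100000) + 12 * a4 * (50001 / 100000) ^ 2 -
      κ * (w * (2 * (50001 / 100000) + c ^ 2) - 4 * c * Iw (Real.pi ^ 2) w)) : VB w θ := by
  intro C hC
  obtain ⟨K1, hK1⟩ := Fq_lip1
  obtain ⟨K2, hK2⟩ := Fq_lip2 w
  refine void_meas hw0 hw2 (F := Fq) (b := 4999 / 10000) (k := 61 / 25) (by norm_num) (by norm_num)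
    Fq_nonneg Fq_le Fq_supp hK1 hK2 hκ hc ha2 ha4 hA1 hA2 hC ?_
  have h1 := I1_le
  have h0 := I1_nonneg
  have h2 := Iw_le hw0 hw2
  set I1 := ∫ u in (0 : ℝ)..1, u * Fq u ^ 2 with hI1
  set I2 := ∫ u in (0 : ℝ)..1, Fq u * Real.sin (Real.pi * (w * u)) with hI2
  have hpi := Real.pi_pos
  refine hval.trans_le ?_
  unfold vl
  have h3 : Iw (Real.pi ^ 2) w ≤ I2 / Real.pi := by
    rw [le_div_iff₀ hpi, mul_comm]
    exact h2
  have h4 : I1 ^ 2 ≤ (50001 / 100000) ^ 2 := pow_le_pow_left₀ h0 h1 2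
  have e1 : 4 * c / Real.pi * (I2 - 0) = 4 * c * (I2 / Real.pi) := by
    field_simp
    ring
  rw [e1]
  have h5 : κ * (4 * c * Iw (Real.pi ^ 2) w) ≤ κ * (4 * c * (I2 / Real.pi)) := by gcongr
  have h6 : (κ * w - a2) * I1 ≤ (κ * w - a2) * (50001 / 100000) :=
    mul_le_mul_of_nonneg_left h1 (by linarith)
  have h7 : a4 * (50001 / 100000) ^ 2 ≤ a4 * I1 ^ 2 := mul_le_mul_of_nonpos_left h4 ha4
  nlinarith

end Pool.Agent.KS6_15.VW
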