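import Pool.Graph.R_seed8.Y747.Nf

/-! The weighted number of zeros near `t`, for windows of general length. -/

open Complex Filter Topology Set MeasureTheory

namespace Pool.Agent.KS6_15.VW

open Pool.Agent.Y747 TC

theorem nf_tau {w : ℝ} (hw0 : 0 < w) (C ε A V c η : ℝ) (hC : 0 < C) (hε : 0 < ε) (hε1 : ε ≤ 1 / 10) (hA0 : 0 ≤ A)
    (hη : 0 < η) :
    ∃ T1 : ℝ, ∀ T τ : ℝ, T1 ≤ T → ∀ (Z : Finset ℝ) (m : ℝ → ℕ), EFD C T Z m →
    T + T ^ (1 - ε / 16) ≤ τ → τ ≤ 2 * T - T ^ (1 - ε / 16) →
    ∀ (α : ℕ → ℝ) (P : ℕ), 1 ≤ P → (P : ℝ) * P ≤ T ^ (1 - 3 * ε / 4) →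
    (∀ n, |α n| ≤ A / (2 * Real.log T) * lam n) →
    2 * (∑ n ∈ Finset.Icc 2 P, (α n) ^ 2) + c ^ 2 ≤ V →
    ∑ g ∈ Z, (m g : ℝ) * (∫ t in (g - w * Real.pi / Real.log T)..(g + w * Real.pi / Real.log T),
      om τ (T ^ (1 - ε / 8)) t * (WW α P t + c) ^ 2) ≤
      (1 + η) * (Real.sqrt (2 * Real.pi) * T ^ (1 - ε / 8) *
        (w * (2 * (∑ n ∈ Finset.Icc 2 P, (α n) ^ 2) + c ^ 2 + 4 * η) -
          4 * c / Real.pi * Rq α P (Real.log T) (w * Real.pi / Real.log T))) := by
  obtain ⟨T0, hT0⟩ := dmg C ε A V c η hC hε hε1 hA0 hη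
  have ev1 : ∀ᶠ T : ℝ in atTop, max Real.pi (w * Real.pi) ≤ Real.log T := Real.tendsto_log_atTop.eventually_ge_atTop _
  have ev2 : ∀ᶠ T : ℝ in atTop, Real.exp ((2 * T + 1) / (2 * (T ^ (1 - ε / 8)) ^ 2)) ≤ 1 + η := by
    have h1 : Tendsto (fun T : ℝ => (2 * T + 1) / (2 * (T ^ (1 - ε / 8)) ^ 2)) atTop (𝓝 0) := by
      have h2 : Tendsto (fun T : ℝ => 2 * T ^ (-(1 - ε / 4))) atTop (𝓝 0) := by
        have := (tendsto_rpow_neg_atTop (show 0 < 1 - ε / 4 by linarith)).const_mul 2
        simpa using this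
      apply squeeze_zero' _ _ h2
      · filter_upwards [eventually_gt_atTop 0] with T hT
        positivity
      · filter_upwards [eventually_ge_atTop 1] with T hT
        have hTp : 0 < T := by linarith
        have e1 : (T ^ (1 - ε / 8)) ^ 2 = T * T ^ (1 - ε / 4) := by
          rw [← Real.rpow_natCast, ← Real.rpow_mul hTp.le]
          conv_rhs => rw [← Real.rpow_one T, ← Real.rpow_mul hTp.le]
          rw [← Real.rpow_add hTp]
          congr 1
          push_cast
          ring
        rw [e1, div_le_iff₀ (by positivity)]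
        have e2 : T ^ (-(1 - ε / 4)) * T ^ (1 - ε / 4) = 1 := by
          rw [← Real.rpow_add hTp]
          simp
        have e3 : 2 * T ^ (-(1 - ε / 4)) * (2 * (T * T ^ (1 - ε / 4))) =
            4 * T * (T ^ (-(1 - ε / 4)) * T ^ (1 - ε / 4)) := by ring
        rw [e3, e2]
        linarith
    have h3 : Tendsto (fun T : ℝ => Real.exp ((2 * T + 1) / (2 * (T ^ (1 - ε / 8)) ^ 2))) atTop
        (𝓝 1) := by
      have := (Real.continuous_exp.tendsto 0).comp h1
      rw [Real.exp_zero] at this
      exact this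
    filter_upwards [h3.eventually (gt_mem_nhds (show (1 : ℝ) < 1 + η by linarith))] with T hT
    exact hT.le
  obtain ⟨T1, hT1⟩ := eventually_atTop.1 ((ev1.and ev2).and (eventually_ge_atTop (max T0 1)))
  refine ⟨T1, fun T τ hT Z m hE hτ1 hτ2 α P hP hPP hα hV => ?_⟩
  obtain ⟨⟨f1, f2⟩, f3⟩ := hT1 T hT
  have hTT0 : T0 ≤ T := (le_max_left _ _).trans f3
  have hT1' : 1 ≤ T := (le_max_right _ _).trans f3
  have hTp : 0 < T := by linarith
  have hpi := Real.pi_pos
  set L := Real.log T with hL
  have hL0 : 0 < L := lt_of_lt_of_le hpi ((le_max_left _ _).trans f1)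
  set h := w * Real.pi / L with hh
  have hh0 : 0 < h := by positivity
  have hh1 : h ≤ 1 := (div_le_one hL0).2 ((le_max_right _ _).trans f1)
  set H := T ^ (1 - ε / 8) with hH
  have hH0 : 0 < H := by positivity
  have hd : 0 < T ^ (1 - ε / 16) := by positivity
  set F : ℝ → ℝ := fun t => (WW α P t + c) ^ 2 with hF
  have hFc : Continuous F := ((WW_cont α P).add continuous_const).pow 2
  have hom : Continuous (om τ H) := om_cont τ H
  -- first step: replace the weight
  have s1 : ∀ g ∈ Z, (m g : ℝ) * (∫ t in (g - h)..(g + h), om τ H t * F t) ≤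
      (1 + η) * ((m g : ℝ) * (om τ H g * ∫ t in (g - h)..(g + h), F t)) := by
    intro g hg
    obtain ⟨g1, g2⟩ := hE.mem g hg
    have h1 : (∫ t in (g - h)..(g + h), om τ H t * F t) ≤
        ∫ t in (g - h)..(g + h), ((1 + η) * om τ H g) * F t := by
      apply intervalIntegral.integral_mono_on (by linarith)
        ((hom.mul hFc).intervalIntegrable _ _) ((continuous_const.mul hFc).intervalIntegrable _ _)
      intro t ht
      apply mul_le_mul_of_nonneg_right _ (sq_nonneg _)
      apply om_shift hH0 hh1 (T := T) _ _ f2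
      · rw [abs_le]
        constructor <;> linarith
      · rw [abs_le]
        constructor <;> linarith [ht.1, ht.2]
    rw [intervalIntegral.integral_const_mul] at h1
    have h2 := mul_le_mul_of_nonneg_left h1 (Nat.cast_nonneg (α := ℝ) (m g))
    refine h2.trans (le_of_eq ?_)
    ring
  refine (Finset.sum_le_sum s1).trans ?_
  rw [← Finset.mul_sum]
  apply mul_le_mul_of_nonneg_left _ (by linarith)
  -- second step: exchange
  have s2 : ∑ g ∈ Z, (m g : ℝ) * (om τ H g * ∫ t in (g - h)..(g + h), F t) =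
      ∫ s in (0 : ℝ)..h, ∑ g ∈ Z, (m g : ℝ) * (om τ H g * (F (g + s) + F (g - s))) := by
    rw [intervalIntegral.integral_finsetSum]
    · apply Finset.sum_congr rfl
      intro g _
      rw [intervalIntegral.integral_const_mul, intervalIntegral.integral_const_mul, loc_int hFc]
    · intro g _
      apply Continuous.intervalIntegrable
      exact continuous_const.mul (continuous_const.mul ((hFc.comp (by fun_prop)).add
        (hFc.comp (by fun_prop))))
  rw [s2]
  set S := ∑ n ∈ Finset.Icc 2 P, (α n) ^ 2 with hS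
  set W := Real.sqrt (2 * Real.pi) * H with hW
  -- third step: the bound at each `s`
  have s3 : ∀ s ∈ Icc (0 : ℝ) h, ∑ g ∈ Z, (m g : ℝ) * (om τ H g * (F (g + s) + F (g - s))) ≤
      2 * (W * (1 / Real.pi)) * (L / 2 * (2 * S + c ^ 2) + 2 * η * L) -
        2 * (W * (1 / Real.pi)) * (2 * c) *
          ∑ n ∈ Finset.Icc 2 P, α n * qf L n * Real.cos (s * Real.log n) := by
    intro s _
    have hb : ∀ n, 2 * |α n| ≤ A / L * lam n := by
      intro n
      have h1 := mul_le_mul_of_nonneg_left (hα n) (by norm_num : (0 : ℝ) ≤ 2)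
      refine h1.trans (le_of_eq ?_)
      field_simp
    have hsq : (∑ n ∈ Finset.Icc 2 P, (ap α s n) ^ 2) + (∑ n ∈ Finset.Icc 2 P, (am α s n) ^ 2) =
        2 * S := by
      rw [← Finset.sum_add_distrib, hS, Finset.mul_sum]
      exact Finset.sum_congr rfl fun n _ => apm_sq α s n
    have h1 := hT0 T τ hTT0 Z m hE hτ1 hτ2 (ap α s) (am α s) P hP hPP
      (fun n => (ap_abs α s n).trans (hb n)) (fun n => (am_abs α s n).trans (hb n))
      (by rw [hsq]; exact hV)
    rw [hsq] at h1
    have hlin : (∑ n ∈ Finset.Icc 2 P, ap α s n * qf L n) +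
        (∑ n ∈ Finset.Icc 2 P, am α s n * qf L n) =
        2 * ∑ n ∈ Finset.Icc 2 P, α n * qf L n * Real.cos (s * Real.log n) := by
      rw [← Finset.sum_add_distrib, Finset.mul_sum]
      apply Finset.sum_congr rfl
      intro n _
      have := apm_add α s n
      calc ap α s n * qf L n + am α s n * qf L n = (ap α s n + am α s n) * qf L n := by ring
        _ = _ := by rw [this]; ring
    rw [hlin] at h1
    have h2 : ∑ g ∈ Z, (m g : ℝ) * (om τ H g * (F (g + s) + F (g - s))) =
        2 * ∑ g ∈ Z, (m g : ℝ) * (om τ H g * ‖DD (ap α s) (am α s) P P c g‖ ^ 2) := by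
      rw [Finset.mul_sum]
      apply Finset.sum_congr rfl
      intro g _
      have := shift_id α P c g s
      simp only [hF]
      rw [this]
      ring
    rw [h2]
    have h3 := mul_le_mul_of_nonneg_left h1 (by norm_num : (0 : ℝ) ≤ 2)
    refine h3.trans (le_of_eq ?_)
    ring
  have c1 : Continuous fun s => ∑ g ∈ Z, (m g : ℝ) * (om τ H g * (F (g + s) + F (g - s))) := by
    apply continuous_finsetSum
    intro g _
    exact continuous_const.mul (continuous_const.mul ((hFc.comp (by fun_prop)).add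
        (hFc.comp (by fun_prop))))
  have c2 : Continuous fun s : ℝ => ∑ n ∈ Finset.Icc 2 P, α n * qf L n * Real.cos (s * Real.log n) := by
    fun_prop
  have c3 : Continuous fun s : ℝ => 2 * (W * (1 / Real.pi)) * (L / 2 * (2 * S + c ^ 2) + 2 * η * L) -
        2 * (W * (1 / Real.pi)) * (2 * c) *
          ∑ n ∈ Finset.Icc 2 P, α n * qf L n * Real.cos (s * Real.log n) :=
    continuous_const.sub (continuous_const.mul c2)
  have c4 : Continuous fun s : ℝ => 2 * (W * (1 / Real.pi)) * (2 * c) *
          ∑ n ∈ Finset.Icc 2 P, α n * qf L n * Real.cos (s * Real.log n) := continuous_const.mul c2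
  have s4 := intervalIntegral.integral_mono_on (μ := volume) hh0.le (c1.intervalIntegrable _ _)
    (c3.intervalIntegrable _ _) s3
  refine s4.trans (le_of_eq ?_)
  have hR : ∫ s in (0 : ℝ)..h, ∑ n ∈ Finset.Icc 2 P, α n * qf L n * Real.cos (s * Real.log n) =
      Rq α P L h := by
    rw [intervalIntegral.integral_finsetSum]
    · unfold Rq
      apply Finset.sum_congr rfl
      intro n hn
      rw [intervalIntegral.integral_const_mul, cos_int]
      have : (2 : ℝ) ≤ n := by exact_mod_cast (Finset.mem_Icc.1 hn).1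
      exact (Real.log_pos (by linarith)).ne'
    · intro n _
      apply Continuous.intervalIntegrable
      fun_prop
  rw [intervalIntegral.integral_sub (continuous_const.intervalIntegrable _ _)
    (c4.intervalIntegrable _ _), intervalIntegral.integral_const,
    intervalIntegral.integral_const_mul, hR, smul_eq_mul, sub_zero]
  rw [hh]
  field_simp
  ring

end Pool.Agent.KS6_15.VW
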