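import Pool.Graph.R_seed8.Y747.Gp
import Pool.Agent.KS6_15.VW.Vd

/-! Lower bounds for the sums of `(δ_n - w)₊`, for general `w`. -/

open Complex Filter Topology Set MeasureTheory

namespace Pool.Agent.KS6_15.VW

open Pool.Agent.Y747
open TC (ordz mu EFD)
open SG (ord NZ zmult ZS)
open W200.HW (Ix mem_Ix)
open Pool.Agent.TH873.EW (XV)

/-- the hypothesis on the void sets of the blocks -/
def VB (w θ : ℝ) : Prop := ∀ C : ℝ, 0 < C →
    ∃ T1 : ℝ, ∀ T : ℝ, T1 ≤ T → ∀ (Z : Finset ℝ) (m : ℝ → ℕ), EFD C T Z m →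
      θ * T ≤ (volume (UU Z (w * Real.pi / Real.log T) ∩ Ioc (T + 3) (2 * T - 3))).toReal

/-- the gaps of a block -/
lemma block_gp (RH : RiemannHypothesis) {w θ : ℝ} (hV : VB w θ) (e : ℝ) (he : 0 < e) : ∃ T1 : ℝ, 10 ≤ T1 ∧ ∀ T : ℝ, T1 ≤ T →
    (θ - e) * T ≤ ∑ n ∈ Jx T, max 0 (ord (n + 1) - ord n - 2 * (w * Real.pi / Real.log T)) := by
  obtain ⟨C, T0, hC, hT0, hef⟩ := Pool.Agent.W930.TCEFR.efr RH
  obtain ⟨T2, h2⟩ := hV C hC
  obtain ⟨T3, hT3, h3⟩ := NZ_gap RH e he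
  have ev : ∀ᶠ T : ℝ in atTop, max Real.pi (w * Real.pi) ≤ Real.log T :=
    Real.tendsto_log_atTop.eventually_ge_atTop _
  obtain ⟨T4, h4⟩ := eventually_atTop.1 ev
  refine ⟨max (max T0 T2) (max T3 T4), hT0.trans ((le_max_left _ _).trans (le_max_left _ _)),
    fun T hT => ?_⟩
  have a1 : T0 ≤ T := ((le_max_left _ _).trans (le_max_left _ _)).trans hT
  have a2 : T2 ≤ T := ((le_max_right _ _).trans (le_max_left _ _)).trans hT
  have a3 : T3 ≤ T := ((le_max_left _ _).trans (le_max_right _ _)).trans hT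
  have a4 : T4 ≤ T := ((le_max_right _ _).trans (le_max_right _ _)).trans hT
  obtain ⟨U1, U2, b1, b2, b3, b4, b5⟩ := hef T a1
  have c1 := h2 T a2 (ordz U1 U2) mu b5
  have c2 := h3 T a3
  have c3 := h4 T a4
  have hL : 0 < Real.log T := lt_of_lt_of_le Real.pi_pos ((le_max_left _ _).trans c3)
  have hh : w * Real.pi / Real.log T ≤ 1 := (div_le_one hL).2 ((le_max_right _ _).trans c3)
  have c4 := void_vol RH (T := T) (h := w * Real.pi / Real.log T) (hT0.trans a1) hh b1 b2 b3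
  have c5 : ord (NZ T + 1) ≤ (1 + e) * T := (SG.ord_le_iff (by omega) _).2 c2
  have c6 : max 0 (ord (NZ T + 1) - T) ≤ e * T := by
    apply max_le
    · have : 0 ≤ T := by linarith
      positivity
    · linarith
  linarith

/-- the block bound for `(δ - w)₊` -/
lemma block_delta (RH : RiemannHypothesis) {w θ : ℝ} (hB : ∀ e : ℝ, 0 < e → ∃ T1 : ℝ, 10 ≤ T1 ∧
    ∀ T : ℝ, T1 ≤ T → (θ - e) * T ≤
      ∑ n ∈ Jx T, max 0 (ord (n + 1) - ord n - 2 * (w * Real.pi / Real.log T))) (η : ℝ) (hη : 0 < η) : ∃ T1 : ℝ, 10 ≤ T1 ∧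
    ∀ T : ℝ, T1 ≤ T → (θ - η) * (T * Real.log T / (2 * Real.pi)) ≤
      ∑ n ∈ Jx T, max 0 (dl n - w) := by
  obtain ⟨T1, hT1, h1⟩ := hB (η / 2) (by positivity)
  obtain ⟨T2, hT2, h2⟩ := sum_gaps_le RH
  set ℓ0 := Real.log (2 * Real.pi) with hℓ0
  have hpi := Real.pi_gt_three
  have hℓ00 : 0 < ℓ0 := Real.log_pos (by linarith)
  have ev : ∀ᶠ T : ℝ in atTop, ℓ0 + 16 * ℓ0 / η ≤ Real.log T :=
    Real.tendsto_log_atTop.eventually_ge_atTop _
  obtain ⟨T3, h3⟩ := eventually_atTop.1 ev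
  refine ⟨max T1 (max T2 T3), hT1.trans (le_max_left _ _), fun T hT => ?_⟩
  have a1 : T1 ≤ T := (le_max_left _ _).trans hT
  have a2 : T2 ≤ T := ((le_max_left _ _).trans (le_max_right _ _)).trans hT
  have a3 := h3 T (((le_max_right _ _).trans (le_max_right _ _)).trans hT)
  have hT10 : 10 ≤ T := hT1.trans a1
  have hT0 : 0 < T := by linarith
  set L := Real.log T with hL
  have hq : 0 < 16 * ℓ0 / η := by positivity
  have hL0 : 0 < L := by linarith
  have hLℓ : 0 < L - ℓ0 := by linarith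
  set ρ := ℓ0 / (L - ℓ0) with hρ
  have hρ0 : 0 < ρ := by positivity
  have hρ1 : 16 * ρ ≤ η := by
    rw [hρ, ← mul_div_assoc, div_le_iff₀ hLℓ]
    have : 16 * ℓ0 / η ≤ L - ℓ0 := by linarith
    rw [div_le_iff₀ hη] at this
    linarith
  have hterm : ∀ n ∈ Jx T, L / (2 * Real.pi) * max 0 (ord (n + 1) - ord n - 2 * (w * Real.pi / L)) ≤
      max 0 (dl n - w) + ρ * (Real.log (2 * T) / (2 * Real.pi)) * (ord (n + 1) - ord n) := by
    intro n hn
    rw [mem_Jx] at hn
    obtain ⟨n1, n2, n3⟩ := hn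
    have hg : 0 ≤ ord (n + 1) - ord n := sub_nonneg.2 (SG.ord_mono n1 (by omega))
    set g := ord (n + 1) - ord n with hgd
    have hon : 0 < ord n := by linarith
    set ℓ := Real.log (ord n / (2 * Real.pi)) with hℓ
    have hℓ1 : L - ℓ0 ≤ ℓ := by
      rw [hL, hℓ0, ← Real.log_div hT0.ne' (by positivity), hℓ]
      apply Real.log_le_log (by positivity)
      gcongr
    have hℓ2 : ℓ ≤ Real.log (2 * T) := by
      apply Real.log_le_log (by positivity)
      refine (div_le_self hon.le (by linarith)).trans n3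
    have hℓpos : 0 < ℓ := by linarith
    have hdl : dl n = g / (2 * Real.pi) * ℓ := rfl
    have hdl0 : 0 ≤ dl n := by rw [hdl]; positivity
    have e1 : L / (2 * Real.pi) * max 0 (g - 2 * (w * Real.pi / L)) =
        max 0 (L / (2 * Real.pi) * g - w) := by
      rw [mul_max_of_nonneg _ _ (by positivity : 0 ≤ L / (2 * Real.pi)), mul_zero]
      congr 1
      field_simp
    rw [e1]
    have e2 : L / (2 * Real.pi) * g ≤ dl n + ρ * dl n := by
      have e3 : L ≤ (1 + ρ) * ℓ := by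
        have e4 : (1 + ρ) * (L - ℓ0) = L := by
          rw [hρ]
          field_simp
          ring
        calc L = (1 + ρ) * (L - ℓ0) := e4.symm
          _ ≤ (1 + ρ) * ℓ := by gcongr
      rw [hdl]
      calc L / (2 * Real.pi) * g = g / (2 * Real.pi) * L := by ring
        _ ≤ g / (2 * Real.pi) * ((1 + ρ) * ℓ) := by gcongr
        _ = _ := by ring
    have e5 : ρ * dl n ≤ ρ * (Real.log (2 * T) / (2 * Real.pi)) * g := by
      rw [hdl, mul_assoc]
      apply mul_le_mul_of_nonneg_left _ hρ0.le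
      calc g / (2 * Real.pi) * ℓ ≤ g / (2 * Real.pi) * Real.log (2 * T) := by gcongr
        _ = _ := by ring
    apply max_le
    · have : 0 ≤ ρ * dl n := by positivity
      have := le_max_left 0 (dl n - w)
      linarith
    · have := le_max_right 0 (dl n - w)
      linarith
  have hs := Finset.sum_le_sum hterm
  rw [← Finset.mul_sum, Finset.sum_add_distrib, ← Finset.mul_sum] at hs
  have b1 := h1 T a1
  rw [← hL] at b1
  have b2 := h2 T a2
  have b3 : L / (2 * Real.pi) * ((θ - η / 2) * T) ≤ L / (2 * Real.pi) *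
      ∑ n ∈ Jx T, max 0 (ord (n + 1) - ord n - 2 * (w * Real.pi / L)) :=
    mul_le_mul_of_nonneg_left b1 (by positivity)
  have hl2T : Real.log (2 * T) ≤ 2 * L := by
    rw [Real.log_mul (by norm_num) hT0.ne']
    have : Real.log 2 ≤ Real.log T := Real.log_le_log (by norm_num) (by linarith)
    linarith
  have hl2T0 : 0 ≤ Real.log (2 * T) := Real.log_nonneg (by linarith)
  have b4 : ρ * (Real.log (2 * T) / (2 * Real.pi)) * ∑ n ∈ Jx T, (ord (n + 1) - ord n) ≤
      η / 2 * (T * L / (2 * Real.pi)) := by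
    calc ρ * (Real.log (2 * T) / (2 * Real.pi)) * ∑ n ∈ Jx T, (ord (n + 1) - ord n) ≤
        ρ * (2 * L / (2 * Real.pi)) * (4 * T) := by
          apply mul_le_mul _ b2 _ (by positivity)
          · gcongr
          · apply Finset.sum_nonneg
            intro n hn
            rw [mem_Jx] at hn
            exact sub_nonneg.2 (SG.ord_mono hn.1 (by omega))
      _ = 8 * ρ * (T * L / (2 * Real.pi)) := by ring
      _ ≤ η / 2 * (T * L / (2 * Real.pi)) := by
          have : 8 * ρ ≤ η / 2 := by linarith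
          gcongr
  have e : (θ - η) * (T * L / (2 * Real.pi)) =
      L / (2 * Real.pi) * ((θ - η / 2) * T) - η / 2 * (T * L / (2 * Real.pi)) := by ring
  rw [e]
  linarith

/-- **lower bounds for the mean of `(δ_n - w)₊` from void sets** -/
theorem plus_ge (RH : RiemannHypothesis) {w θ : ℝ} (hθ : 0 ≤ θ) (hV : VB w θ)
    (ε : ℝ) (hε : 0 < ε) :
    ∀ᶠ N : ℕ in atTop, (θ - ε) * N ≤ ∑ n ∈ Finset.Icc 1 N, max 0 (dl n - w) :=
  glob_lower RH (fun n => le_max_left _ _) hθ (fun η hη => block_delta RH (block_gp RH hV) η hη) ε hε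

lemma Jx_eq (T : ℝ) : Jx T = Finset.Ioc (NZ T) (NZ (2 * T)) := by
  ext n
  rw [mem_Jx, Finset.mem_Ioc]
  constructor
  · rintro ⟨h1, h2, h3⟩
    refine ⟨?_, (SG.ord_le_iff h1 _).1 h3⟩
    by_contra hc
    rw [not_lt] at hc
    have := (SG.ord_le_iff h1 T).2 hc
    linarith
  · rintro ⟨h1, h2⟩
    have h0 : 1 ≤ n := by omega
    refine ⟨h0, ?_, (SG.ord_le_iff h0 _).2 h2⟩
    by_contra hc
    rw [not_lt] at hc
    have := (SG.ord_le_iff h0 T).1 hc
    omega

lemma tele (a b : ℕ) (h : a ≤ b) : ∑ n ∈ Finset.Ioc a b, (ord (n + 1) - ord n) =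
    ord (b + 1) - ord (a + 1) := by
  induction b, h using Nat.le_induction with
  | base => simp
  | succ b hb ih =>
    rw [Finset.sum_Ioc_succ_top (by omega), ih]
    ring

/-- the sum of the gaps of a block -/
lemma block_zero (RH : RiemannHypothesis) (e : ℝ) (he : 0 < e) : ∃ T1 : ℝ, 10 ≤ T1 ∧
    ∀ T : ℝ, T1 ≤ T → (1 - e) * T ≤
      ∑ n ∈ Jx T, max 0 (ord (n + 1) - ord n - 2 * (0 * Real.pi / Real.log T)) := by
  obtain ⟨T3, hT3, h3⟩ := NZ_gap RH e he
  refine ⟨T3, hT3, fun T hT => ?_⟩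
  have hT0 : 0 < T := by linarith
  have h1 := h3 T hT
  have h2 : ord (NZ T + 1) ≤ (1 + e) * T := (SG.ord_le_iff (by omega) _).2 h1
  have h4 : 2 * T < ord (NZ (2 * T) + 1) := by
    by_contra hc
    rw [not_lt] at hc
    have := (SG.ord_le_iff (by omega) (2 * T)).1 hc
    omega
  have hle : NZ T ≤ NZ (2 * T) := by
    rcases Nat.eq_zero_or_pos (NZ T) with h0 | h0
    · omega
    · have h5 := (SG.ord_le_iff h0 T).2 le_rfl
      exact (SG.ord_le_iff h0 (2 * T)).1 (h5.trans (by linarith))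
  have h5 : ∑ n ∈ Jx T, (ord (n + 1) - ord n) ≤
      ∑ n ∈ Jx T, max 0 (ord (n + 1) - ord n - 2 * (0 * Real.pi / Real.log T)) := by
    apply Finset.sum_le_sum
    intro n _
    refine le_trans (le_of_eq ?_) (le_max_right _ _)
    simp
  rw [Jx_eq T, tele _ _ hle, ← Jx_eq T] at h5
  linarith

/-- the mean of the gaps -/
theorem sum_dl_ge (RH : RiemannHypothesis) (ε : ℝ) (hε : 0 < ε) :
    ∀ᶠ N : ℕ in atTop, (1 - ε) * N ≤ ∑ n ∈ Finset.Icc 1 N, max 0 (dl n) := by
  have h := glob_lower RH (F := fun n => max 0 (dl n - 0)) (fun n => le_max_left _ _) zero_le_one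
    (fun η hη => block_delta RH (w := 0) (θ := 1) (block_zero RH) η hη) ε hε
  simpa using h

end Pool.Agent.KS6_15.VW
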