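import Pool.Agent.KS6_15.VW.Fc

/-! The void sets for the windows of the lengths `0.85`, `0.9`, `0.95`, `1`, `1.1`, `1.2`. -/

open Complex Filter Topology Set MeasureTheory

namespace Pool.Agent.KS6_15.VW

open Pool.Agent.Y747
open Pool.Agent.E8helper28.RM (plo phi plo_le le_phi)

/-- rational lower bound for `Iw` -/
noncomputable def IwL (w : ℝ) : ℝ :=
  61 / 25 * (w * ((4998 / 10000) ^ 2 / 2 - 3 / 2 * (4998 / 10000) ^ 4 / 4) -
    98696045 / 10000000 * w ^ 3 / 6 * ((4998 / 10000) ^ 4 / 4 - 3 / 2 * (4998 / 10000) ^ 6 / 6) +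
    (98696044 / 10000000) ^ 2 * w ^ 5 / 120 *
      ((4998 / 10000) ^ 6 / 6 - 3 / 2 * (4998 / 10000) ^ 8 / 8) -
    (98696045 / 10000000) ^ 3 * w ^ 7 / 5040 *
      ((4998 / 10000) ^ 8 / 8 - 3 / 2 * (4998 / 10000) ^ 10 / 10))

lemma IwL_le {w : ℝ} (hw : 0 ≤ w) : IwL w ≤ Iw (Real.pi ^ 2) w := by
  have h1 := plo_le
  have h2 := le_phi
  unfold plo at h1
  unfold phi at h2
  set p := Real.pi ^ 2 with hp
  have hp0 : 0 ≤ p := by positivity
  have h3 : (98696044 / 10000000) ^ 2 ≤ p ^ 2 := pow_le_pow_left₀ (by norm_num) h1 2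
  have h4 : p ^ 3 ≤ (98696045 / 10000000) ^ 3 := pow_le_pow_left₀ hp0 h2 3
  unfold IwL Iw
  have e1 : p * w ^ 3 / 6 * ((4998 / 10000) ^ 4 / 4 - 3 / 2 * (4998 / 10000) ^ 6 / 6) ≤
      98696045 / 10000000 * w ^ 3 / 6 * ((4998 / 10000) ^ 4 / 4 - 3 / 2 * (4998 / 10000) ^ 6 / 6) := by
    apply mul_le_mul_of_nonneg_right _ (by norm_num)
    gcongr
  have e2 : (98696044 / 10000000) ^ 2 * w ^ 5 / 120 *
      ((4998 / 10000) ^ 6 / 6 - 3 / 2 * (4998 / 10000) ^ 8 / 8) ≤
      p ^ 2 * w ^ 5 / 120 * ((4998 / 10000) ^ 6 / 6 - 3 / 2 * (4998 / 10000) ^ 8 / 8) := by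
    apply mul_le_mul_of_nonneg_right _ (by norm_num)
    gcongr
  have e3 : p ^ 3 * w ^ 7 / 5040 *
      ((4998 / 10000) ^ 8 / 8 - 3 / 2 * (4998 / 10000) ^ 10 / 10) ≤
      (98696045 / 10000000) ^ 3 * w ^ 7 / 5040 *
      ((4998 / 10000) ^ 8 / 8 - 3 / 2 * (4998 / 10000) ^ 10 / 10) := by
    apply mul_le_mul_of_nonneg_right _ (by norm_num)
    gcongr
  linarith

lemma num_aux {θ A κ c w B : ℝ} (hκ : 0 ≤ κ) (hc : 0 ≤ c) (hw : 0 ≤ w)
    (h : θ < A - κ * (w * B - 4 * c * IwL w)) :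
    θ < A - κ * (w * B - 4 * c * Iw (Real.pi ^ 2) w) := by
  refine h.trans_le ?_
  have h1 := IwL_le hw
  have h2 : 4 * c * IwL w ≤ 4 * c * Iw (Real.pi ^ 2) w := by gcongr
  have h3 : κ * (w * B - 4 * c * Iw (Real.pi ^ 2) w) ≤ κ * (w * B - 4 * c * IwL w) := by gcongr
  linarith

/-- the window of length `0.85` -/
theorem node_085 : VB (17 / 20) (16631 / 100000) := by
  refine vb_of (a0 := (2949 / 5000)) (a1 := (1593 / 5000)) (a2 := (203 / 10000)) (a3 := (-(13 / 500)))
    (a4 := (-(3 / 400))) (κ := (431 / 10000)) (c := (37 / 10)) (by norm_num) (by norm_num) (by norm_num)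
    (by norm_num) (by norm_num) (by norm_num) (fun z => ?_) (fun z => ?_) (by norm_num) ?_
  · unfold AA
    nlinarith [sq_nonneg (z ^ 2 + (26 / 15) * z + (-(29961 / 5000))), sq_nonneg (z + (-(17301 / 10000)))]
  · unfold AA
    nlinarith [sq_nonneg (z ^ 2 + (26 / 15) * z + (13 / 1000)), sq_nonneg (z + (7 / 500))]
  · exact num_aux (by norm_num) (by norm_num) (by norm_num) (by unfold IwL; norm_num)


/-- the window of length `0.9` -/
theorem node_090 : VB (9 / 10) (14071 / 100000) := by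
  refine vb_of (a0 := (4893 / 10000)) (a1 := (141 / 400)) (a2 := (53 / 1250)) (a3 := (-(57 / 2000)))
    (a4 := (-(91 / 10000))) (κ := (619 / 10000)) (c := (2813 / 1000)) (by norm_num) (by norm_num) (by norm_num)
    (by norm_num) (by norm_num) (by norm_num) (fun z => ?_) (fun z => ?_) (by norm_num) ?_
  · unfold AA
    nlinarith [sq_nonneg (z ^ 2 + (285 / 182) * z + (-(30997 / 5000))), sq_nonneg (z + (-(18271 / 10000)))]
  · unfold AA
    nlinarith [sq_nonneg (z ^ 2 + (285 / 182) * z + (-(319 / 2000))), sq_nonneg (z + (3341 / 2000))]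
  · exact num_aux (by norm_num) (by norm_num) (by norm_num) (by unfold IwL; norm_num)


/-- the window of length `0.95` -/
theorem node_095 : VB (19 / 20) (11937 / 100000) := by
  refine vb_of (a0 := (827 / 2000)) (a1 := (723 / 2000)) (a2 := (61 / 1000)) (a3 := (-(7 / 250)))
    (a4 := (-(99 / 10000))) (κ := (189 / 2500)) (c := (2341 / 1000)) (by norm_num) (by norm_num) (by norm_num)
    (by norm_num) (by norm_num) (by norm_num) (fun z => ?_) (fun z => ?_) (by norm_num) ?_
  · unfold AA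
    nlinarith [sq_nonneg (z ^ 2 + (140 / 99) * z + (-(64491 / 10000))), sq_nonneg (z + (-(19291 / 10000)))]
  · unfold AA
    nlinarith [sq_nonneg (z ^ 2 + (140 / 99) * z + (-(67 / 250))), sq_nonneg (z + (-(1697 / 10000)))]
  · exact num_aux (by norm_num) (by norm_num) (by norm_num) (by unfold IwL; norm_num)


/-- the window of length `1.0` -/
theorem node_100 : VB (1 / 1) (10023 / 100000) := by
  refine vb_of (a0 := (1749 / 5000)) (a1 := (3591 / 10000)) (a2 := (769 / 10000)) (a3 := (-(133 / 5000)))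
    (a4 := (-(51 / 5000))) (κ := (869 / 10000)) (c := (503 / 250)) (by norm_num) (by norm_num) (by norm_num)
    (by norm_num) (by norm_num) (by norm_num) (fun z => ?_) (fun z => ?_) (by norm_num) ?_
  · unfold AA
    nlinarith [sq_nonneg (z ^ 2 + (133 / 102) * z + (-(67771 / 10000))), sq_nonneg (z + (-(20317 / 10000)))]
  · unfold AA
    nlinarith [sq_nonneg (z ^ 2 + (133 / 102) * z + (-(3643 / 10000))), sq_nonneg (z + (15407 / 10000))]
  · exact num_aux (by norm_num) (by norm_num) (by norm_num) (by unfold IwL; norm_num)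


/-- the window of length `1.1` -/
theorem node_110 : VB (11 / 10) (6793 / 100000) := by
  refine vb_of (a0 := (1281 / 5000)) (a1 := (1641 / 5000)) (a2 := (477 / 5000)) (a3 := (-(13 / 625)))
    (a4 := (-(47 / 5000))) (κ := (243 / 2500)) (c := (817 / 500)) (by norm_num) (by norm_num) (by norm_num)
    (by norm_num) (by norm_num) (by norm_num) (fun z => ?_) (fun z => ?_) (by norm_num) ?_
  · unfold AA
    nlinarith [sq_nonneg (z ^ 2 + (52 / 47) * z + (-(76641 / 10000))), sq_nonneg (z + (-(22699 / 10000)))]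
  · unfold AA
    nlinarith [sq_nonneg (z ^ 2 + (52 / 47) * z + (-(2609 / 5000))), sq_nonneg (z + (7323 / 5000))]
  · exact num_aux (by norm_num) (by norm_num) (by norm_num) (by unfold IwL; norm_num)


/-- the window of length `1.2` -/
theorem node_120 : VB (6 / 5) (2087 / 50000) := by
  refine vb_of (a0 := (467 / 2500)) (a1 := (1389 / 5000)) (a2 := (989 / 10000)) (a3 := (-(67 / 5000)))
    (a4 := (-(3 / 400))) (κ := (953 / 10000)) (c := (353 / 250)) (by norm_num) (by norm_num) (by norm_num)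
    (by norm_num) (by norm_num) (by norm_num) (fun z => ?_) (fun z => ?_) (by norm_num) ?_
  · unfold AA
    nlinarith [sq_nonneg (z ^ 2 + (67 / 75) * z + (-(90141 / 10000))), sq_nonneg (z + (-(25887 / 10000)))]
  · unfold AA
    nlinarith [sq_nonneg (z ^ 2 + (67 / 75) * z + (-(643 / 1000))), sq_nonneg (z + (-(4743 / 10000)))]
  · exact num_aux (by norm_num) (by norm_num) (by norm_num) (by unfold IwL; norm_num)


end Pool.Agent.KS6_15.VW
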